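import Pool.Agent.CHN.All

set_option autoImplicit false

namespace Pool.Agent.Results.MP_0e7bd3_pr.ChernoffConvexity

open MeasureTheory ProbabilityTheory Set
open scoped NNReal

/-- For Chernoff's distribution, the law of the argmax `Z` of `W t - t ^ 2` for a two-sided
Brownian motion `W`, the map `T = Phi⁻¹ ∘ F_Z` is convex on the positive half-line. -/
theorem result.{u} : ∀ (Ω : Type u) [MeasurableSpace Ω] (P : Measure Ω) [IsProbabilityMeasure P]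
    (W₁ W₂ : ℝ≥0 → Ω → ℝ), IsBrownianReal W₁ P → IsBrownianReal W₂ P →
    IndepFun (fun ω t => W₁ t ω) (fun ω t => W₂ t ω) P →
    ∀ W : ℝ → Ω → ℝ, (∀ t : ℝ, 0 ≤ t → W t = W₁ t.toNNReal) →
    (∀ t : ℝ, t < 0 → W t = W₂ (-t).toNNReal) →
    (∀ᵐ ω ∂P, ∃! t₀ : ℝ, ∀ t : ℝ, W t ω - t ^ 2 ≤ W t₀ ω - t₀ ^ 2) ∧
    ∀ Z : Ω → ℝ, (∀ᵐ ω ∂P, ∀ t : ℝ, W t ω - t ^ 2 ≤ W (Z ω) ω - Z ω ^ 2) →
      AEMeasurable Z P ∧
      (∃ T : ℝ → ℝ, ∀ w, cdf (gaussianReal 0 1) (T w) = cdf (P.map Z) w) ∧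
      ∀ T : ℝ → ℝ, (∀ w, 0 < w → cdf (gaussianReal 0 1) (T w) = cdf (P.map Z) w) →
        ConvexOn ℝ (Ioi 0) T :=
  Pool.Agent.CHN.all.{u}

end Pool.Agent.Results.MP_0e7bd3_pr.ChernoffConvexity
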